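import Pool.Agent.L7h26.LogDist.Def

set_option autoImplicit false

open Matrix Set

namespace Pool.Agent.L7h26.LogDist

/-- parameter of the simple shear with `K = v` -/
noncomputable def tau (v : ℝ) : ℝ := Real.sqrt (2 * Real.cosh (Real.sqrt (2 * v)) - 2)

theorem tau_sq (v : ℝ) : tau v ^ 2 = 2 * Real.cosh (Real.sqrt (2 * v)) - 2 := by
  unfold tau
  rw [Real.sq_sqrt]
  have := Real.one_le_cosh (Real.sqrt (2 * v))
  linarith

theorem tau_nonneg (v : ℝ) : 0 ≤ tau v := Real.sqrt_nonneg _

theorem tau_lt (u v : ℝ) (hu : 0 ≤ u) (huv : u < v) : tau u < tau v := by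
  have h1 : Real.sqrt (2 * u) < Real.sqrt (2 * v) := Real.sqrt_lt_sqrt (by linarith) (by linarith)
  have h2 : Real.cosh (Real.sqrt (2 * u)) < Real.cosh (Real.sqrt (2 * v)) := by
    rw [Real.cosh_lt_cosh, abs_of_nonneg (Real.sqrt_nonneg _), abs_of_nonneg (Real.sqrt_nonneg _)]
    exact h1
  unfold tau
  apply Real.sqrt_lt_sqrt
  · have := Real.one_le_cosh (Real.sqrt (2 * u))
    linarith
  · linarith

theorem K_shear (v t : ℝ) (hv : 0 ≤ v) (ht : t ^ 2 = tau v ^ 2) :
    K !![1, t, 0; 0, 1, 0; 0, 0, 1] = v := by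
  rw [K_block 1 t 1 one_pos one_pos, ht, tau_sq]
  have e : ((1 : ℝ) ^ 2 + (2 * Real.cosh (Real.sqrt (2 * v)) - 2) + 1) / (2 * 1) =
      Real.cosh (Real.sqrt (2 * v)) := by ring
  rw [e, Real.arcosh_cosh (Real.sqrt_nonneg _), Real.sq_sqrt (by linarith)]
  simp

theorem core (W : ℝ → ℝ)
    (h1 : ∀ T : ℝ, 0 < T →
      ConvexOn ℝ (Icc (-T) T) (fun t => W (K !![1, t, 0; 0, 1, 0; 0, 0, 1])))
    (h2 : ∀ n l : ℝ, 0 < l →
      ConvexOn ℝ (Icc 0 3) (fun t => W (K !![1 + t, n * t, 0; 0, 1, 0; 0, 0, l]))) :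
    ∀ u v : ℝ, 0 ≤ u → 0 ≤ v → W u = W v := by
  -- values along the shear line
  have hpos : ∀ v, 0 ≤ v → W (K !![1, tau v, 0; 0, 1, 0; 0, 0, 1]) = W v := fun v hv => by
    rw [K_shear v _ hv rfl]
  have hneg : ∀ v, 0 ≤ v → W (K !![1, -tau v, 0; 0, 1, 0; 0, 0, 1]) = W v := fun v hv => by
    rw [K_shear v _ hv (by ring)]
  -- W is nondecreasing
  have mono : ∀ u v : ℝ, 0 ≤ u → u ≤ v → W u ≤ W v := by
    intro u v hu huv
    rcases huv.eq_or_lt with h | huv
    · rw [h]
    have hv : 0 ≤ v := hu.trans huv.le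
    have ht : tau u < tau v := tau_lt u v hu huv
    have hT : 0 < tau v := (tau_nonneg u).trans_lt ht
    have hc := h1 (tau v) hT
    have := hc.le_max_of_mem_Icc (x := -tau v) (y := tau v) (z := tau u)
      ⟨le_rfl, by linarith⟩ ⟨by linarith, le_rfl⟩
      ⟨by linarith [tau_nonneg u], ht.le⟩
    simp only [hpos u hu, hpos v hv, hneg v hv, max_self] at this
    exact this
  -- if W is not constant it is strictly increasing from some point on
  have strict : ∀ a b : ℝ, 0 ≤ a → a < b → W a < W b → ∀ u v, b ≤ u → u < v → W u < W v := by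
    intro a b ha hab hWab u v hbu huv
    have hb : 0 ≤ b := ha.trans hab.le
    have hu : 0 ≤ u := hb.trans hbu
    have hv : 0 ≤ v := hu.trans huv.le
    have t1 : tau a < tau u := tau_lt a u ha (hab.trans_le hbu)
    have t2 : tau u < tau v := tau_lt u v hu huv
    have hT : 0 < tau v := (tau_nonneg u).trans_lt t2
    have hc := h1 (tau v) hT
    by_contra hcon
    push Not at hcon
    have hWau : W a < W u := hWab.trans_le (mono b u hb hbu)
    -- convexity at tau u between tau a and tau v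
    have hne : 0 < tau v - tau a := by linarith
    have ma : tau a ∈ Icc (-tau v) (tau v) := ⟨by linarith [tau_nonneg a, tau_nonneg v], by linarith⟩
    have mv : tau v ∈ Icc (-tau v) (tau v) := ⟨by linarith, le_rfl⟩
    have w1 : 0 ≤ (tau v - tau u) / (tau v - tau a) := div_nonneg (by linarith) (by linarith)
    have w2 : 0 ≤ (tau u - tau a) / (tau v - tau a) := div_nonneg (by linarith) (by linarith)
    have w3 : (tau v - tau u) / (tau v - tau a) + (tau u - tau a) / (tau v - tau a) = 1 := by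
      field_simp
      ring
    have key := hc.2 ma mv w1 w2 w3
    have hcomb : (tau v - tau u) / (tau v - tau a) * tau a +
        (tau u - tau a) / (tau v - tau a) * tau v = tau u := by
      field_simp
      ring
    simp only [smul_eq_mul] at key
    rw [hcomb] at key
    simp only [hpos u hu, hpos v hv, hpos a ha] at key
    have p1 : 0 < (tau v - tau u) / (tau v - tau a) := div_pos (by linarith) hne
    have p2 : 0 ≤ (tau u - tau a) / (tau v - tau a) := div_nonneg (by linarith) hne.le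
    have p3 : (tau v - tau u) / (tau v - tau a) + (tau u - tau a) / (tau v - tau a) = 1 := by
      field_simp
      ring
    have q1 : (tau u - tau a) / (tau v - tau a) * W v ≤
        (tau u - tau a) / (tau v - tau a) * W u := mul_le_mul_of_nonneg_left hcon p2
    have q2 : (tau v - tau u) / (tau v - tau a) * W a <
        (tau v - tau u) / (tau v - tau a) * W u := mul_lt_mul_of_pos_left hWau p1
    have q3 : ((tau v - tau u) / (tau v - tau a) + (tau u - tau a) / (tau v - tau a)) * W u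
        = W u := by rw [p3, one_mul]
    linarith
  -- the certificate
  have cert : ∀ a b : ℝ, 0 ≤ a → a < b → ¬ W a < W b := by
    intro a b ha hab hWab
    have hst := strict a b ha hab hWab
    have hb : 0 < b := ha.trans_lt hab
    set L := Real.log 2 with hL
    have hLpos : 0 < L := Real.log_pos (by norm_num)
    have hL1 : L < 1 := by
      have := Real.log_two_lt_d9
      linarith
    set e := 8 * L + b + 6 with he
    have hepos : 0 < e := by positivity
    set P := 4 * (Real.cosh e - 1) with hP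
    have he6 : 6 ≤ e := by rw [he]; linarith
    have hcosh : 3 ≤ Real.cosh e := by
      rw [Real.cosh_eq]
      have := Real.add_one_le_exp e
      have := Real.exp_pos (-e)
      linarith
    have hP1 : 1 < P := by
      rw [hP]
      linarith
    set n := Real.sqrt (P - 1) with hn
    have hn2 : n ^ 2 = P - 1 := Real.sq_sqrt (by linarith)
    set c := (9 * e + 16 * L) / 2 with hc
    set l := Real.exp c with hl
    have hlpos : 0 < l := Real.exp_pos _
    have hlog : Real.log l = c := Real.log_exp _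
    have hconv := h2 n l hlpos
    -- K at 0
    have k0 : K !![1 + 0, n * 0, 0; 0, 1, 0; 0, 0, l] = (9 * e + 16 * L) ^ 2 / 6 := by
      rw [K_block _ _ l (by norm_num) hlpos, hlog]
      have : ((1 + 0 : ℝ) ^ 2 + (n * 0) ^ 2 + 1) / (2 * (1 + 0)) = 1 := by norm_num
      rw [this, Real.arcosh_zero]
      simp only [add_zero, Real.log_one]
      rw [hc]
      ring
    -- K at 1
    have k1 : K !![1 + 1, n * 1, 0; 0, 1, 0; 0, 0, l] =
        e ^ 2 / 2 + (9 * e + 15 * L) ^ 2 / 6 := by
      rw [K_block _ _ l (by norm_num) hlpos, hlog]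
      have : ((1 + 1 : ℝ) ^ 2 + (n * 1) ^ 2 + 1) / (2 * (1 + 1)) = Real.cosh e := by
        rw [mul_one, hn2, hP]; ring
      rw [this, Real.arcosh_cosh hepos.le]
      have h2' : (1 + 1 : ℝ) = 2 := by norm_num
      rw [h2', ← hL, hc]
      ring
    -- K at 3
    have hlog4 : Real.log 4 = 2 * L := by
      rw [hL, show (4 : ℝ) = 2 ^ 2 by norm_num, Real.log_pow]; norm_num
    set q := ((1 + 3 : ℝ) ^ 2 + (n * 3) ^ 2 + 1) / (2 * (1 + 3)) with hq
    have hqe : q = 1 + 9 / 2 * (Real.cosh e - 1) := by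
      rw [hq, mul_pow, hn2, hP]; ring
    have hq1 : 1 ≤ q := by
      rw [hqe]
      linarith
    have hE3 : Real.arcosh q ≤ e + 3 * L := by
      have hpos3 : 0 ≤ e + 3 * L := by positivity
      rw [← Real.arcosh_cosh hpos3, Real.arcosh_le_arcosh (by linarith) (Real.cosh_pos _)]
      rw [Real.cosh_add, hqe]
      have e3 : Real.exp (3 * L) = 8 := by
        rw [hL, mul_comm, Real.exp_mul, Real.exp_log (by norm_num)]
        norm_num
      have e3' : Real.exp (-(3 * L)) = 1 / 8 := by
        rw [Real.exp_neg, e3]; norm_num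
      have c3 : Real.cosh (3 * L) = 65 / 16 := by
        rw [Real.cosh_eq, e3, e3']; norm_num
      have s3 : Real.sinh (3 * L) = 63 / 16 := by
        rw [Real.sinh_eq, e3, e3']; norm_num
      rw [c3, s3]
      have hsc : Real.cosh e - 1 ≤ Real.sinh e := by
        have := Real.cosh_sub_sinh e
        have h3 : Real.exp (-e) ≤ 1 := Real.exp_le_one_iff.2 (by linarith)
        linarith
      nlinarith
    have k3 : K !![1 + 3, n * 3, 0; 0, 1, 0; 0, 0, l] =
        (Real.arcosh q) ^ 2 / 2 + (9 * e + 14 * L) ^ 2 / 6 := by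
      rw [K_block _ _ l (by norm_num) hlpos, hlog, ← hq]
      have h4' : (1 + 3 : ℝ) = 4 := by norm_num
      rw [h4', hlog4, hc]
      ring
    have hE0 : 0 ≤ Real.arcosh q := Real.arcosh_nonneg hq1
    have k3le : (Real.arcosh q) ^ 2 / 2 + (9 * e + 14 * L) ^ 2 / 6 ≤
        (e + 3 * L) ^ 2 / 2 + (9 * e + 14 * L) ^ 2 / 6 := by
      have : (Real.arcosh q) ^ 2 ≤ (e + 3 * L) ^ 2 := by
        apply pow_le_pow_left₀ hE0 hE3
      linarith
    have hbe : b ≤ e := by rw [he]; linarith
    have b0 : b ≤ (9 * e + 16 * L) ^ 2 / 6 := by nlinarith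
    have b3 : b ≤ (Real.arcosh q) ^ 2 / 2 + (9 * e + 14 * L) ^ 2 / 6 := by nlinarith
    have c01 : (9 * e + 16 * L) ^ 2 / 6 < e ^ 2 / 2 + (9 * e + 15 * L) ^ 2 / 6 := by
      have : 8 * L ≤ e := by rw [he]; linarith
      nlinarith
    have c31 : (Real.arcosh q) ^ 2 / 2 + (9 * e + 14 * L) ^ 2 / 6 <
        e ^ 2 / 2 + (9 * e + 15 * L) ^ 2 / 6 := by
      refine k3le.trans_lt ?_
      nlinarith
    have w0 : W ((9 * e + 16 * L) ^ 2 / 6) < W (e ^ 2 / 2 + (9 * e + 15 * L) ^ 2 / 6) :=
      hst _ _ b0 c01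
    have w3 : W ((Real.arcosh q) ^ 2 / 2 + (9 * e + 14 * L) ^ 2 / 6) <
        W (e ^ 2 / 2 + (9 * e + 15 * L) ^ 2 / 6) := hst _ _ b3 c31
    have m0 : (0 : ℝ) ∈ Icc (0 : ℝ) 3 := ⟨le_rfl, by norm_num⟩
    have m3 : (3 : ℝ) ∈ Icc (0 : ℝ) 3 := ⟨by norm_num, le_rfl⟩
    have key := hconv.2 m0 m3 (by norm_num : (0 : ℝ) ≤ 2 / 3) (by norm_num : (0 : ℝ) ≤ 1 / 3)
      (by norm_num)
    simp only [smul_eq_mul] at key
    have e1 : (2 / 3 * 0 + 1 / 3 * 3 : ℝ) = 1 := by norm_num
    rw [e1, k0, k1, k3] at key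
    linarith
  intro u v hu hv
  rcases lt_trichotomy u v with h | h | h
  · exact le_antisymm (mono u v hu h.le) (not_lt.1 (cert u v hu h))
  · rw [h]
  · exact le_antisymm (not_lt.1 (cert v u hv h)) (mono v u hv h.le)

end Pool.Agent.L7h26.LogDist
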