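import Mathlib

set_option autoImplicit false

open Matrix Polynomial

namespace Pool.Agent.L7h26.LogDist

/-- Real `3 × 3` matrices. -/
abbrev M3 := Matrix (Fin 3) (Fin 3) ℝ

/-- The right stretch tensor `U = √(FᵀF)` (the square root is applied to the eigenvalues of the
symmetric matrix `FᵀF`, by the continuous functional calculus). -/
noncomputable def stretch (F : M3) : M3 := cfc Real.sqrt (Fᵀ * F)

/-- `log U` (the logarithm is applied to the eigenvalues of `U`). -/
noncomputable def logU (F : M3) : M3 := cfc Real.log (stretch F)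

/-- The deviator `dev₃ X = X - (tr X / 3) 1`. -/
noncomputable def dev (X : M3) : M3 := X - (X.trace / 3) • (1 : M3)

/-- `K(F) = ‖dev₃ log U‖²`, with `‖X‖² = tr (X Xᵀ)`. -/
noncomputable def K (F : M3) : ℝ := (dev (logU F) * (dev (logU F))ᵀ).trace

theorem herm (F : M3) : (Fᵀ * F).IsHermitian := by
  have := isHermitian_conjTranspose_mul_self F
  rwa [conjTranspose_eq_transpose_of_trivial] at this

theorem trace_cfc {A : M3} (hA : A.IsHermitian) (f : ℝ → ℝ) :
    (cfc f A).trace = ∑ i, f (hA.eigenvalues i) := by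
  rw [hA.cfc_eq f, IsHermitian.cfc, Unitary.conjStarAlgAut_apply, trace_mul_comm, ← mul_assoc]
  simp [trace_diagonal]

theorem sum_eig {A : M3} (hA : A.IsHermitian) (f : ℝ → ℝ) (a b c : ℝ)
    (hc : A.charpoly = (X - C a) * (X - C b) * (X - C c)) :
    ∑ i, f (hA.eigenvalues i) = f a + f b + f c := by
  have h1 := hA.roots_charpoly_eq_eigenvalues
  rw [hc, roots_mul (by
      exact mul_ne_zero (mul_ne_zero (X_sub_C_ne_zero a) (X_sub_C_ne_zero b)) (X_sub_C_ne_zero c)),
    roots_mul (mul_ne_zero (X_sub_C_ne_zero a) (X_sub_C_ne_zero b)), roots_X_sub_C,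
    roots_X_sub_C, roots_X_sub_C] at h1
  have h2 : (Multiset.map f ({a} + {b} + {c})).sum =
      (Multiset.map f (Multiset.map (RCLike.ofReal ∘ hA.eigenvalues) Finset.univ.val)).sum := by
    rw [h1]
  rw [Multiset.map_map] at h2
  simp only [Multiset.map_add, Multiset.map_singleton, Multiset.sum_add, Multiset.sum_singleton]
    at h2
  rw [h2]
  rfl

theorem logU_eq (F : M3) : logU F = cfc (fun x => Real.log (Real.sqrt x)) (Fᵀ * F) := by
  have hA : IsSelfAdjoint (Fᵀ * F) := herm F
  have hfin := Matrix.finite_real_spectrum (A := Fᵀ * F)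
  unfold logU stretch
  exact (cfc_comp' Real.log Real.sqrt (Fᵀ * F) ((hfin.image _).continuousOn _)
    (hfin.continuousOn _) hA).symm

theorem logU_symm (F : M3) : (logU F)ᵀ = logU F := by
  have : IsSelfAdjoint (logU F) := by
    unfold logU
    exact cfc_predicate _ _
  have h2 := this.star_eq
  rwa [star_eq_conjTranspose, conjTranspose_eq_transpose_of_trivial] at h2

theorem K_eq (F : M3) (a b c : ℝ)
    (hc : (Fᵀ * F).charpoly = (X - C a) * (X - C b) * (X - C c)) :
    K F = (Real.log (Real.sqrt a)) ^ 2 + (Real.log (Real.sqrt b)) ^ 2 +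
      (Real.log (Real.sqrt c)) ^ 2 -
      (Real.log (Real.sqrt a) + Real.log (Real.sqrt b) + Real.log (Real.sqrt c)) ^ 2 / 3 := by
  set L := logU F with hL
  have hsymm : Lᵀ = L := logU_symm F
  have hfin := Matrix.finite_real_spectrum (A := Fᵀ * F)
  have hsa : IsSelfAdjoint (Fᵀ * F) := herm F
  have t1 : L.trace = Real.log (Real.sqrt a) + Real.log (Real.sqrt b) + Real.log (Real.sqrt c) := by
    rw [hL, logU_eq, trace_cfc (herm F), sum_eig (herm F) (fun x => Real.log (Real.sqrt x)) a b c hc]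
  have t2 : (L * L).trace = (Real.log (Real.sqrt a)) ^ 2 + (Real.log (Real.sqrt b)) ^ 2 +
      (Real.log (Real.sqrt c)) ^ 2 := by
    have : L * L = cfc (fun x => (Real.log (Real.sqrt x)) ^ 2) (Fᵀ * F) := by
      rw [hL, logU_eq, ← cfc_mul _ _ _ (hfin.continuousOn _) (hfin.continuousOn _)]
      congr 1
      ext x
      ring
    rw [this, trace_cfc (herm F),
      sum_eig (herm F) (fun x => (Real.log (Real.sqrt x)) ^ 2) a b c hc]
  have t3 : K F = (L * L).trace - (L.trace) ^ 2 / 3 := by
    unfold K dev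
    rw [← hL]
    rw [transpose_sub, transpose_smul, transpose_one, hsymm, sub_mul, mul_sub, mul_sub]
    simp only [trace_sub, mul_smul_comm, smul_mul_assoc, mul_one, one_mul, trace_smul, trace_one,
      smul_eq_mul, Fintype.card_fin]
    push_cast
    ring
  rw [t3, t2, t1]

/-- `K` of the upper triangular matrix with rows `(p,q,0)`, `(0,1,0)`, `(0,0,l)`. -/
theorem K_block (p q l : ℝ) (hp : 0 < p) (hl : 0 < l) :
    K !![p, q, 0; 0, 1, 0; 0, 0, l] =
      (Real.arcosh ((p ^ 2 + q ^ 2 + 1) / (2 * p))) ^ 2 / 2 +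
        (Real.log p - 2 * Real.log l) ^ 2 / 6 := by
  set r := (p ^ 2 + q ^ 2 + 1) / (2 * p) with hr
  have hr1 : 1 ≤ r := by
    rw [hr, le_div_iff₀ (by positivity)]
    nlinarith [sq_nonneg (p - 1), sq_nonneg q]
  set E := Real.arcosh r with hE
  have hcosh : Real.cosh E = r := Real.cosh_arcosh hr1
  have hsum : p * Real.exp E + p * Real.exp (-E) = p ^ 2 + q ^ 2 + 1 := by
    have : Real.exp E + Real.exp (-E) = 2 * r := by
      rw [← hcosh, Real.cosh_eq]; ring
    rw [← mul_add, this, hr]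
    field_simp
  have hprod : (p * Real.exp E) * (p * Real.exp (-E)) = p ^ 2 := by
    have : Real.exp E * Real.exp (-E) = 1 := by rw [← Real.exp_add]; simp
    linear_combination p ^ 2 * this
  have hch : ((!![p, q, 0; 0, 1, 0; 0, 0, l] : M3)ᵀ * !![p, q, 0; 0, 1, 0; 0, 0, l]).charpoly
      = (X - C (p * Real.exp E)) * (X - C (p * Real.exp (-E))) * (X - C (l ^ 2)) := by
    have hm : (!![p, q, 0; 0, 1, 0; 0, 0, l] : M3)ᵀ * !![p, q, 0; 0, 1, 0; 0, 0, l] =
        !![p ^ 2, p * q, 0; p * q, q ^ 2 + 1, 0; 0, 0, l ^ 2] := by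
      ext i j
      fin_cases i <;> fin_cases j <;> simp [Matrix.mul_apply, Fin.sum_univ_three] <;> ring
    rw [hm, charpoly, det_fin_three]
    simp
    have e1 : (C p * C (Real.exp E) + C p * C (Real.exp (-E)) : ℝ[X]) = C (p ^ 2 + q ^ 2 + 1) := by
      rw [← hsum]; simp
    have e2 : ((C p * C (Real.exp E)) * (C p * C (Real.exp (-E))) : ℝ[X]) = C (p ^ 2) := by
      rw [← hprod]; simp
    simp only [map_add, map_pow, map_one] at e1 e2
    linear_combination (X * (X - C l ^ 2)) * e1 - (X - C l ^ 2) * e2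
  rw [K_eq _ _ _ _ hch]
  have g1 : Real.log (Real.sqrt (p * Real.exp E)) = (Real.log p + E) / 2 := by
    rw [Real.log_sqrt (by positivity), Real.log_mul hp.ne' (Real.exp_pos _).ne', Real.log_exp]
  have g2 : Real.log (Real.sqrt (p * Real.exp (-E))) = (Real.log p - E) / 2 := by
    rw [Real.log_sqrt (by positivity), Real.log_mul hp.ne' (Real.exp_pos _).ne', Real.log_exp]
    ring
  have g3 : Real.log (Real.sqrt (l ^ 2)) = Real.log l := by
    rw [Real.sqrt_sq hl.le]
  rw [g1, g2, g3]
  ring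

end Pool.Agent.L7h26.LogDist
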