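import Pool.Agent.L7h26.LogDist.Def

set_option autoImplicit false

open Matrix

namespace Pool.Agent.L7h26.LogDist

theorem psd (F : M3) : (Fᵀ * F).PosSemidef := by
  have := posSemidef_conjTranspose_mul_self F
  rwa [conjTranspose_eq_transpose_of_trivial] at this

theorem eig_pos (F : M3) (hF : 0 < F.det) (i : Fin 3) : 0 < (herm F).eigenvalues i := by
  have h1 : 0 ≤ (herm F).eigenvalues i := (psd F).eigenvalues_nonneg i
  rcases h1.eq_or_lt with h | h
  · exfalso
    have h2 := (herm F).det_eq_prod_eigenvalues
    have h3 : (∏ i, ((herm F).eigenvalues i : ℝ)) = 0 :=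
      Finset.prod_eq_zero (Finset.mem_univ i) h.symm
    rw [det_mul, det_transpose] at h2
    simp only [RCLike.ofReal_real_eq_id, id] at h2
    rw [h3] at h2
    have : 0 < F.det * F.det := by positivity
    linarith
  · exact h

/-- `U = stretch F` is the symmetric positive definite square root of `FᵀF`, and `logU F` is the
symmetric matrix whose exponential is `U`. -/
theorem spec (F : M3) (hF : 0 < F.det) :
    (stretch F).PosDef ∧ stretch F * stretch F = Fᵀ * F ∧ (logU F)ᵀ = logU F ∧
      NormedSpace.exp (logU F) = stretch F := by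
  have hfin := Matrix.finite_real_spectrum (A := Fᵀ * F)
  have hsa : IsSelfAdjoint (Fᵀ * F) := herm F
  set V := (herm F).eigenvectorUnitary with hV
  have hs : stretch F = (V : M3) * diagonal (fun i => Real.sqrt ((herm F).eigenvalues i)) *
      star (V : M3) := by
    unfold stretch
    rw [(herm F).cfc_eq, IsHermitian.cfc, Unitary.conjStarAlgAut_apply]
    rfl
  have hl : logU F = (V : M3) *
      diagonal (fun i => Real.log (Real.sqrt ((herm F).eigenvalues i))) * star (V : M3) := by
    rw [logU_eq, (herm F).cfc_eq, IsHermitian.cfc, Unitary.conjStarAlgAut_apply]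
    rfl
  have hVs : star (V : M3) * (V : M3) = 1 := Unitary.coe_star_mul_self V
  have hVs' : (V : M3) * star (V : M3) = 1 := Unitary.coe_mul_star_self V
  have hinv : (V : M3)⁻¹ = star (V : M3) := Matrix.inv_eq_left_inv hVs
  refine ⟨?_, ?_, logU_symm F, ?_⟩
  · rw [hs]
    have hd : (diagonal (fun i => Real.sqrt ((herm F).eigenvalues i)) : M3).PosDef :=
      PosDef.diagonal fun i => Real.sqrt_pos.2 (eig_pos F hF i)
    have hu : IsUnit (V : M3) := ⟨⟨V, star (V : M3), hVs', hVs⟩, rfl⟩
    have := (Matrix.IsUnit.posDef_star_left_conjugate_iff (x := (diagonal (fun i => Real.sqrt ((herm F).eigenvalues i)) : M3)) (U := star (V : M3)) (hu.star)).2 hd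
    rwa [star_star] at this
  · rw [hs]
    calc (V : M3) * diagonal (fun i => Real.sqrt ((herm F).eigenvalues i)) * star (V : M3) *
        ((V : M3) * diagonal (fun i => Real.sqrt ((herm F).eigenvalues i)) * star (V : M3))
        = (V : M3) * diagonal (fun i => Real.sqrt ((herm F).eigenvalues i)) *
          (star (V : M3) * (V : M3)) *
          diagonal (fun i => Real.sqrt ((herm F).eigenvalues i)) * star (V : M3) := by
          simp only [Matrix.mul_assoc]
      _ = (V : M3) * (diagonal (fun i => Real.sqrt ((herm F).eigenvalues i)) *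
          diagonal (fun i => Real.sqrt ((herm F).eigenvalues i))) * star (V : M3) := by
          rw [hVs]
          simp only [Matrix.mul_assoc, Matrix.one_mul]
      _ = (V : M3) * diagonal (herm F).eigenvalues * star (V : M3) := by
          rw [diagonal_mul_diagonal]
          congr 3
          ext i
          exact Real.mul_self_sqrt (eig_pos F hF i).le
      _ = Fᵀ * F := by
          conv_rhs => rw [(herm F).spectral_theorem, Unitary.conjStarAlgAut_apply]
          rfl
  · rw [hl, hs, ← hinv, Matrix.exp_conj _ _ ⟨⟨V, star (V : M3), hVs', hVs⟩, rfl⟩,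
      Matrix.exp_diagonal]
    congr 3
    ext i
    rw [Pi.coe_exp, ← Real.exp_eq_exp_ℝ, Real.exp_log (Real.sqrt_pos.2 (eig_pos F hF i))]

end Pool.Agent.L7h26.LogDist
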